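import Mathlib
import Pool.Agent.N848.LT.Stm2

/-!
# LT/SQT: the field generated by all square roots of a set of integers (for helper848)
-/

set_option autoImplicit false

namespace Pool.Agent.N402.LT

open NumberField IsDedekindDomain Module Pool.Agent.Y18.LC IntermediateField

variable {Ω : Type} [Field Ω] [CharZero Ω]

lemma dvd_iff_integral (K : IntermediateField ℚ Ω) (a : 𝓞 K) {l : ℕ} (hl : l ≠ 0) :
    a ∈ Ideal.span {(l : 𝓞 K)} ↔ IsIntegral ℤ (((a : K) : Ω) / l) := by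
  have hlΩ : (l : Ω) ≠ 0 := Nat.cast_ne_zero.2 hl
  rw [Ideal.mem_span_singleton]
  constructor
  · rintro ⟨b, hb⟩
    have h1 : ((a : K) : Ω) = l * ((b : K) : Ω) := by
      have := congrArg (fun t : 𝓞 K => ((t : K) : Ω)) hb
      simpa using this
    rw [h1, mul_div_cancel_left₀ _ hlΩ]
    exact b.2.map (K.val.toRingHom.toIntAlgHom)
  · intro h
    have h2 : IsIntegral ℤ ((a : K) / (l : K)) := by
      have h3 : K.val.toRingHom.toIntAlgHom ((a : K) / (l : K)) = ((a : K) : Ω) / l := by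
        rw [map_div₀, map_natCast]
        rfl
      rw [← h3] at h
      exact (isIntegral_algHom_iff K.val.toRingHom.toIntAlgHom K.val.toRingHom.injective).1 h
    have hlK : (l : K) ≠ 0 := Nat.cast_ne_zero.2 hl
    obtain ⟨b, hb⟩ : ∃ b : 𝓞 K, (b : K) = (a : K) / (l : K) := ⟨⟨_, h2⟩, rfl⟩
    refine ⟨b, ?_⟩
    apply RingOfIntegers.coe_injective
    rw [map_mul, map_natCast]
    rw [show algebraMap (𝓞 K) K b = (a : K) / (l : K) from hb, mul_div_cancel₀ _ hlK]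

/-- the radical part, from the finite case -/
lemma radical (h : Pool.Agent.N848.LT.S_MSQ) (T : Set ℤ) (A : IntermediateField ℚ Ω)
    (hA : A = IntermediateField.adjoin ℚ {s : Ω | ∃ t ∈ T, s ^ 2 = (t : Ω)}) {q : ℕ}
    (hq : q.Prime) (hqT : ∀ t ∈ T, ¬ (q : ℤ) ∣ 2 * t) : (Ideal.span {(q : 𝓞 A)}).IsRadical := by
  classical
  rintro x ⟨n, hn⟩
  obtain ⟨S, hS, hxS⟩ := exists_finset_of_mem_adjoin (hA.le (x : A).2)
  have hS' : ∀ s ∈ S, ∃ t : ℤ, s ^ 2 = (t : Ω) ∧ ¬ (q : ℤ) ∣ 2 * t := by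
    intro s hs
    obtain ⟨t, ht, hst⟩ := hS hs
    exact ⟨t, hst, hqT t ht⟩
  set E : IntermediateField ℚ Ω := adjoin ℚ (S : Set Ω) with hE
  have hrad := (h Ω S (fun s hs => by
    obtain ⟨t, ht, _⟩ := hS' s hs
    exact ⟨t, ht⟩)).2 q hq hS'
  have hxE : ((x : A) : Ω) ∈ E := hxS
  have hxint : IsIntegral ℤ ((x : A) : Ω) := x.2.map (A.val.toRingHom.toIntAlgHom)
  have hxint' : IsIntegral ℤ (⟨((x : A) : Ω), hxE⟩ : E) :=
    (isIntegral_algHom_iff E.val.toRingHom.toIntAlgHom E.val.toRingHom.injective).1 hxint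
  obtain ⟨x', hx'⟩ : ∃ x' : 𝓞 E, ((x' : E) : Ω) = ((x : A) : Ω) :=
    ⟨⟨⟨((x : A) : Ω), hxE⟩, hxint'⟩, rfl⟩
  rw [dvd_iff_integral A _ hq.ne_zero] at hn ⊢
  have h1 : (x' ^ n) ∈ Ideal.span {(q : 𝓞 E)} := by
    rw [dvd_iff_integral E _ hq.ne_zero]
    have e1 : (((x' ^ n : 𝓞 E) : E) : Ω) = ((x : A) : Ω) ^ n := by
      simp [hx']
    have e2 : (((x ^ n : 𝓞 A) : A) : Ω) = ((x : A) : Ω) ^ n := by
      simp
    rw [e1, ← e2]
    exact hn
  have h2 : x' ∈ Ideal.span {(q : 𝓞 E)} := hrad ⟨n, h1⟩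
  rw [dvd_iff_integral E _ hq.ne_zero, hx'] at h2
  exact h2

/-- the field generated by square roots of integers is elementary abelian -/
lemma ea (G : Set Ω) (hG : ∀ s ∈ G, ∃ t : ℤ, s ^ 2 = (t : Ω)) : EA 2 (adjoin ℚ G) := by
  have hgal : IsGalois ℚ (adjoin ℚ G) := by
    have hn : Normal ℚ (adjoin ℚ G) := by
      have hsp : ∀ s ∈ G, IsIntegral ℚ s ∧
          ((minpoly ℚ s).map (algebraMap ℚ (adjoin ℚ G))).Splits := by
        intro s hs
        obtain ⟨t, ht⟩ := hG s hs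
        have hint : IsIntegral ℚ s := by
          refine ⟨Polynomial.X ^ 2 - Polynomial.C (t : ℚ), Polynomial.monic_X_pow_sub_C _ two_ne_zero, ?_⟩
          rw [Polynomial.eval₂_sub, Polynomial.eval₂_pow, Polynomial.eval₂_X, Polynomial.eval₂_C, ht,
            map_intCast, sub_self]
        refine ⟨hint, ?_⟩
        have hd : minpoly ℚ s ∣ Polynomial.X ^ 2 - Polynomial.C (t : ℚ) := by
          apply minpoly.dvd
          simp [ht]
        set σ : adjoin ℚ G := ⟨s, subset_adjoin ℚ G hs⟩ with hσ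
        have hσ2 : σ ^ 2 = (t : adjoin ℚ G) := by
          apply Subtype.ext
          simpa using ht
        have h2 : (Polynomial.X ^ 2 - Polynomial.C (t : ℚ)).map (algebraMap ℚ (adjoin ℚ G)) =
            (Polynomial.X - Polynomial.C σ) * (Polynomial.X + Polynomial.C σ) := by
          have h3 : Polynomial.C (t : adjoin ℚ G) = Polynomial.C σ ^ 2 := by
            rw [← hσ2, map_pow]
          rw [Polynomial.map_sub, Polynomial.map_pow, Polynomial.map_X, Polynomial.map_C]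
          rw [show (algebraMap ℚ (adjoin ℚ G)) (t : ℚ) = (t : adjoin ℚ G) from map_intCast _ _, h3]
          ring
        have h4 : ((Polynomial.X ^ 2 - Polynomial.C (t : ℚ)).map
            (algebraMap ℚ (adjoin ℚ G))).Splits := by
          rw [h2]
          exact (Polynomial.Splits.X_sub_C σ).mul (Polynomial.Splits.X_add_C σ)
        refine h4.of_dvd ?_ (Polynomial.map_dvd _ hd)
        exact (Polynomial.map_ne_zero_iff (algebraMap ℚ (adjoin ℚ G)).injective).2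
          (Polynomial.monic_X_pow_sub_C _ two_ne_zero).ne_zero
      refine normal_iff.2 fun x => ⟨?_, ?_⟩
      · have := isAlgebraic_adjoin (fun s hs => (hsp s hs).1)
        exact (this.isAlgebraic x).isIntegral
      · have h5 := splits_of_mem_adjoin ℚ Ω hsp x.2
        rwa [← IntermediateField.minpoly_eq x] at h5
    exact ⟨⟩
  have hgen : ∀ g : (adjoin ℚ G) ≃ₐ[ℚ] (adjoin ℚ G), ∀ s (hs : s ∈ G),
      g ⟨s, subset_adjoin ℚ G hs⟩ = ⟨s, subset_adjoin ℚ G hs⟩ ∨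
      g ⟨s, subset_adjoin ℚ G hs⟩ = -⟨s, subset_adjoin ℚ G hs⟩ := by
    intro g s hs
    obtain ⟨t, ht⟩ := hG s hs
    rw [← sq_eq_sq_iff_eq_or_eq_neg, ← map_pow]
    have h1 : (⟨s, subset_adjoin ℚ G hs⟩ : adjoin ℚ G) ^ 2 = (t : adjoin ℚ G) := by
      apply Subtype.ext
      simpa using ht
    rw [h1, map_intCast]
  have hsq : ∀ g : (adjoin ℚ G) ≃ₐ[ℚ] (adjoin ℚ G), g ^ 2 = 1 := by
    intro g
    have h2 : ((g ^ 2 : (adjoin ℚ G) ≃ₐ[ℚ] (adjoin ℚ G)) : (adjoin ℚ G) →ₐ[ℚ] (adjoin ℚ G)) =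
        ((1 : (adjoin ℚ G) ≃ₐ[ℚ] (adjoin ℚ G)) : (adjoin ℚ G) →ₐ[ℚ] (adjoin ℚ G)) := by
      apply adjoin_algHom_ext
      intro s hs
      show g (g ⟨s, _⟩) = ⟨s, _⟩
      rcases hgen g s hs with h3 | h3
      · rw [h3, h3]
      · rw [h3, map_neg, h3, neg_neg]
    ext x
    have := DFunLike.congr_fun h2 x
    exact congrArg Subtype.val this
  refine ⟨hgal, ?_, hsq⟩
  intro g h
  have h1 := hsq (g * h)
  have h2 := hsq g
  have h3 := hsq h
  rw [sq] at h1 h2 h3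
  have h4 : g⁻¹ = g := inv_eq_of_mul_eq_one_left h2
  have h5 : h⁻¹ = h := inv_eq_of_mul_eq_one_left h3
  have h6 : (g * h)⁻¹ = g * h := inv_eq_of_mul_eq_one_left h1
  rw [mul_inv_rev, h4, h5] at h6
  exact h6.symm

theorem t_SQT (h : Pool.Agent.N848.LT.S_MSQ) : Pool.Agent.N848.LT.S_SQT := by
  intro Ω _ _ T A hA
  refine ⟨?_, fun q hq hqT => radical h T A hA hq hqT⟩
  subst hA
  exact ea _ (fun s ⟨t, _, ht⟩ => ⟨t, ht⟩)

end Pool.Agent.N402.LT
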